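import Pool.Agent.W954.Aff.Red

/-!
# Affine polynomial projection is `∃ℝ`-hard

The decision problems are defined in `Pool.Agent.W954.Aff.Defs`; polynomials are given by the lists
of their terms (nonzero coefficients and pairwise distinct exponent vectors), `∃ℝ`-hardness
(`Pool.Agent.ER.Defs`) refers to polynomial-time many-one reductions (Turing machines).

The problem stays `∃ℝ`-hard if `f` is the fixed form `x₀² x₁²` and `g` is restricted to quartic
forms; for forms of equal degree the affine and the linear version coincide.

Proof. Whether a system `q₁ = ... = q_m = 0` of quadratic forms in `y ∈ ℝⁿ` has a nonzero real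
solution is `∃ℝ`-hard. Let `g(y, t) = ∑ q_l(y)² + t² |y|²`. If `y` is a solution of norm `1`, then
`g(x₀ y, x₁) = x₀² x₁²`. Conversely let `x₀² x₁² = g(A x + b)` for all `x`. Since both sides are
forms of degree four, `b` may be replaced by `0` (apply the identity to `x / s`, multiply by `s⁴`
and let `s` tend to `0`). Let `y(x)` consist of the first `n` entries of `A x`. The left hand side
vanishes at the two unit vectors `e₀`, `e₁`, so `y(e₀)` and `y(e₁)` are solutions; if both were
zero, then `y(e₀ + e₁) = 0` and so `1 = g(A (e₀ + e₁)) = 0`.
-/

namespace Pool.Agent.Results.MP_ca1301_lc.AffineProjectionHard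

open Pool.Agent.NPC Pool.Agent.NPC.ER Pool.Agent.W954.Aff

/-- Affine polynomial projection is `∃ℝ`-hard under polynomial-time many-one reductions, and it
remains so if the first polynomial is `x₀² x₁²` and the second one is a form of degree four. -/
theorem result : ERHard (lang AffineProjection) ∧ ERHard (lang QuarticFormProjection) :=
  ⟨affineProjection_hard, quarticFormProjection_hard⟩

end Pool.Agent.Results.MP_ca1301_lc.AffineProjectionHard
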